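import Pool.Agent.MCB.A.RAY
/-!
Cell A: boxes of the region AY.
-/
set_option deprecated.oldSectionVars true
set_option autoImplicit false

namespace Pool.Agent.MCB.A
open Pool.Agent.MSQ Pool.Agent.MTR Pool.Agent.PKD Pool.Agent.MCA

def bAY_6_0 : Bw := ⟨6, 7, 7, 0, 1, 1, 0x40000000000000, 0x20000000000000,
 [⟨0, [(1, ⟨3, 0, 0x7fffeaecf289520000e2638114c7fffce61c0998a00003903e9766⟩), (2, ⟨3, 0, 0x7ffff9a3135d0a0000403af8b307ffff29965e6a200000ed328c28⟩), (5, ⟨6, 0, 0x1e824b550fa08c910db98d4139e179df2e3d5880cb8736c2c7b7611238e98844d2209918e299921101f006ee0a80150⟩)], []⟩,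
  ⟨1, [(2, ⟨3, 0, 0x7ffff9a3135d0a0000403af8b307ffff29965e6a200000ed328c28⟩), (5, ⟨6, 0, 0x1e824b550fa08c910db98d4139e179df2e3d5880cb8736c2c7b7611238e98844d2209918e299921101f006ee0a80150⟩)], []⟩,
  ⟨3, [(5, ⟨6, 0, 0x1ffffd1d0dd6e0a32014797d0cc0dae02f2243a80b0b09dc26b6381d6edfc816b790801400aa18fbc20080b85ed9eb0⟩)], []⟩,
  ⟨4, [(5, ⟨6, 0, 0x1ffffd1d0dd6e0a32014797d0cc0dae02f2243a80b0b09dc26b6381d6edfc816b790801400aa18fbc20080b85ed9eb0⟩)], []⟩],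
 [],
 [],
 [],
 [], 101, 31, 0x400000⟩

theorem kAY_6_0 : bchkz zsAY aRA rdAY RAY bAY_6_0 = true := by
  decide +kernel

end Pool.Agent.MCB.A
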