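import Pool.Agent.MCB.A.RGA
/-!
Cell A: boxes of the region GA.
-/
set_option deprecated.oldSectionVars true
set_option autoImplicit false

namespace Pool.Agent.MCB.A
open Pool.Agent.MSQ Pool.Agent.MTR Pool.Agent.PKD Pool.Agent.MCA

def bGA_6_0 : Bw := ⟨6, 7, 7, 0, 1, 1, 0x80000000000000, 0x40000000000000,
 [⟨0, [(1, ⟨3, 0, 0x80000000364380fffffffee7d13200000001e3f423fffffffee880a⟩), (2, ⟨3, 0, 0x800000032ea55d0000005973f391fffffe902fe97400000163aa574⟩), (8, ⟨6, 0, 0xffffe4a1b2a0020000a435d04003fffe80d7c4c0080001486ba080100000000000002000000000000040003a28646c00⟩)], []⟩,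
  ⟨2, [(2, ⟨3, 0, 0x7fffffff637d5100000004894489fffffff56e6e1400000007e9082⟩)], []⟩,
  ⟨3, [(0, ⟨3, 0, 0x800000026f4751000000287c1799ffffff4f339754000000addb88c⟩), (2, ⟨3, 0, 0x7fffffffb32061000000023ab3a1fffffffacdecc400000003e3b86⟩)], []⟩,
  ⟨4, [(6, ⟨3, 0, 0x800072d32f1564fffcf9170a56ca00065274ea63c3fffbe02275ad2⟩), (8, ⟨6, 0, 0x100001b5e4d60022b73063b67f781f9a4bcaa4a186dd8537f68ad06cf6fc17cdc13ee0f4d2c7c6540bb4fdbbd6a98e460⟩)], []⟩,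
  ⟨5, [(7, ⟨3, 0, 0x8000034df1a55cffffec63be1dfa0000265470aa43ffffe759c310c⟩), (8, ⟨5, 0, 0x201401ed1733083f219b605fc51a827401b2ed4eb4ff91c3a69f3c61f9cb0ce2893d2405ef707705840⟩)], []⟩],
 [],
 [],
 [],
 [], 104, 32, 0x2000000⟩

theorem kGA_6_0 : bchkz zsGA aRG rdGA RGA bGA_6_0 = true := by
  decide +kernel

end Pool.Agent.MCB.A
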