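import Pool.Agent.MCB.A.RX
/-!
Cell A: boxes of the region X.
-/
set_option deprecated.oldSectionVars true
set_option autoImplicit false

namespace Pool.Agent.MCB.A
open Pool.Agent.MSQ Pool.Agent.MTR Pool.Agent.PKD Pool.Agent.MCA

def bX_0_6 : Bw := ⟨0, 1, 1, 6, 7, 7, 0x200000000000000, 0x100000000000000,
 [⟨0, [(1, ⟨0, 3, 0x80000e642e42993fffeb33c1837520000ad3150400cffffe3ffa7a0fc⟩), (6, ⟨0, 11, 0x7ff38565d811ec3ff949aa821aca1fed1fc331a2bf0ff1aa4aad856087fe2003b9700303984b004b26b01e5ad80a4a52c39301fb91ea6fb18679ff977feab295c098c96b003cc75bf01a22fc4e5fd168eec1b2d4448⟩)], []⟩,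
  ⟨1, [(6, ⟨0, 11, 0x800c7a9a27ee143ffa3bbb55f72220126734646f150ffbb1fcb9147487fcdc211d6a67846856f4012c94253d21f70b16b08b8cdf7e7163629e408e6ea0ecc176dc1fd011a683c0564c61a2c4e149d168eec1b2d4448⟩)], []⟩,
  ⟨2, [(4, ⟨0, 3, 0x800086e740d7413fff24aa72a74220007379b582770fffec3ba147ab2⟩)], []⟩,
  ⟨3, [(5, ⟨0, 3, 0x800002cb23355f3ffffdbc16a7be200000b8c882d94fffffe993b0130⟩), (6, ⟨0, 9, 0x2000790869ee2c0fffdac41c4bbd08010d93e7f45103ffad69ef83d001fed1fb99839f4500e3a55c0f65cc7fad9aea63755b4030a7359c42d71fe9f7ee012c7210037ba02fb0c10⟩)], []⟩],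
 [],
 [],
 [(1, [⟨0, 11, 0x800c7a9a27ee144006b6557de5362012e03cce5d41100e55b5527a9f8801dffc468ffd0467b4ffb4d94fe5a527f5b5ad3c6efe046e15904e7a86006880154d6abf673694ffc338e40fe5dd03b1a04e97113e4d2bbb8⟩, ⟨0, 3, 0x7ffff19bd1bd67400014cc3e7c8b1ffff52ceafbff500001c00585f04⟩, ⟨0, 4, 0x100001cc85c85327fffe4cbb14983400000d9eb8b76a000075309f8204ffffe3ffa7a0fc⟩, ⟨0, 0, 0x100000000000000⟩, ⟨0, 0, 0x100000000000000⟩, ⟨0, 3, 0x7ffff19bd1bd67400014cc3e7c8b1ffff52ceafbff500001c00585f04⟩, ⟨0, 0, 0x100000000000000⟩, ⟨0, 0, 0x100000000000000⟩, ⟨0, 0, 0x100000000000000⟩, ⟨0, 0, 0x100000000000000⟩, ⟨0, 0, 0x100000000000000⟩]), (2, [⟨0, 11, 0x7ff38565d811ec4005c444aa08de1fed98cb9b90eb10044e0346eb8b880323dee295988397a90bfed36bdec2de08f4e94f767320818e9c9d62bf71915f133e89a3e02fee597c3fe9b39e5d3b1eb64e97113e4d2bbb8⟩, ⟨0, 3, 0x7ffff19bd1bd67400014cc3e7c8b1ffff52ceafbff500001c00585f04⟩,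 ⟨0, 4, 0x100001cc85c85327fffc80354c45140002a7268848c9ffff1acdff01ed00001c00585f04⟩, ⟨0, 0, 0x100000000000000⟩, ⟨0, 0, 0x100000000000000⟩, ⟨0, 0, 0x100000000000000⟩, ⟨0, 0, 0x100000000000000⟩, ⟨0, 0, 0x100000000000000⟩, ⟨0, 0, 0x100000000000000⟩, ⟨0, 0, 0x100000000000000⟩, ⟨0, 0, 0x100000000000000⟩]), (0, [⟨0, 9, 0x2000790869ee2c0ffb36c043a3a2080503df6fe1ac83f56cfc7b249a4268060849bdbfa47531192df6ca7cc572011685f2c426568151e12464adc38608162a0a8d744f4c4e15e60⟩, ⟨0, 5, 0x1ffffd1f0202ca100009d2d9160107fffafb8cad4974000047aa0b6572000018733ffe5500000cdc63e2e4⟩, ⟨0, 5, 0x2000027f09de1e1000025cadd61747fff8a3419cca4400045d9890a171ffff346290a4f100000040b01050⟩, ⟨0, 6, 0x3fffffb4e3f7ac20000077eff2420fffffcaed31350800000857c4f603ffffff79f990c1ffffff58bb5ba0fffffff72e2ea0⟩, ⟨0, 0, 0x100000000000000⟩, ⟨0, 0, 0x100000000000000⟩, ⟨0, 5, 0x1ffffd10684be4100009d658c1ea07fffaee8f259af400004a2e396932000016eb911cd500000cc7b5b2a4⟩,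 ⟨0, 5, 0x2000000e99b6e60ffffff2345f1a0800000d180b8b83fffff5951f4ac20000019b91c740fffffff261f970⟩, ⟨0, 0, 0x100000000000000⟩, ⟨0, 0, 0x100000000000000⟩, ⟨0, 0, 0x100000000000000⟩])],
 [], 122, 49, 0x8000000⟩

theorem kX_0_6 : bchkz zsX aRX rdX RX bX_0_6 = true := by
  decide +kernel

end Pool.Agent.MCB.A
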