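import Pool.Agent.MCB.A.D
/-!
Cell A: the matrix of the region AY.
-/
set_option deprecated.oldSectionVars true
set_option autoImplicit false

namespace Pool.Agent.MCB.A
open Pool.Agent.MSQ Pool.Agent.MTR Pool.Agent.PKD Pool.Agent.MCA

def rdAY : Rd := ⟨6, 0, [(0, 0), (0, 0), (3, 0), (0, 0), (0, 0), (0, 0)], [], [], [], 14, 2, [1, 1, 1564557456, 1, 1, 1], [], [], [], [false, true, true, true, true, true, false, false, false, false, false], 0x80000000000000, 0x40000000000000⟩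

def RAY : List Pk := [⟨0, 0, 0x40000000000000⟩,
  ⟨6, 0, 0x100001717914901737fae1a0bcd064a3fa1bb78b0059aafaae82be40fa7aa60c4f87820071a7ff134c04169e558e40c00⟩,
  ⟨0, 0, 0x40000000000000⟩,
  ⟨0, 0, 0x40000000000000⟩,
  ⟨3, 0, 0x852dcc387710e0f2f8d22682a2020060d553bb9d840bcfe325fa4b0⟩,
  ⟨3, 0, 0x852dcc387710e0f2f8d22682a2020060d553bb9d840bcfe325fa4b0⟩,
  ⟨0, 0, 0x40000000000000⟩,
  ⟨0, 0, 0x40000000000000⟩,
  ⟨0, 0, 0x40000000000000⟩,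
  ⟨0, 0, 0x40000000000000⟩,
  ⟨0, 0, 0x40000000000000⟩,
  ⟨6, 0, 0xffff900276dc0200028e847a1603fffb3473eb248800022c160fa6100001e191d8221fffffe15ef0603ffffe78a67d50⟩,
  ⟨0, 0, 0x40000000000000⟩,
  ⟨6, 0, 0x10000068294e081ffff7f5e13df040001f1ce263c07fffd86cfbe481000006a02b7c0200000bd0a329040000000069ae0⟩,
  ⟨3, 0, 0x7ffff6395711e10000146d6b4c01ffffff9cc80383fffff39f24580⟩,
  ⟨3, 0, 0x7ffff6395711e10000146d6b4c01ffffff9cc80383fffff39f24580⟩,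
  ⟨0, 0, 0x40000000000000⟩,
  ⟨0, 0, 0x40000000000000⟩,
  ⟨0, 0, 0x40000000000000⟩,
  ⟨0, 0, 0x40000000000000⟩,
  ⟨0, 0, 0x40000000000000⟩,
  ⟨6, 0, 0xfffffe181b44020000021530640400000e6f8a7c07ffffdc620c041000001dbdb1881ffffff6467ef0400000011bb2a0⟩,
  ⟨0, 0, 0x40000000000000⟩,
  ⟨3, 0, 0x80000033f821a0ffffff2769c282000000e8c0d583ffffffca79b60⟩,
  ⟨3, 0, 0x7fffffcc07de61000000d8963d81ffffff173f2a8400000035864a0⟩,
  ⟨0, 0, 0x40000000000000⟩,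
  ⟨0, 0, 0x40000000000000⟩,
  ⟨0, 0, 0x40000000000000⟩,
  ⟨0, 0, 0x40000000000000⟩,
  ⟨0, 0, 0x40000000000000⟩,
  ⟨6, 0, 0xffffff47095482000002bf00b603fffffe4d3a6807fffffc2d0b44100000043748101fffffff9ba8e0400000002fef80⟩,
  ⟨3, 0, 0x8000023efefd80fffff7de1569c2000007388c4303ffffffeb2d810⟩,
  ⟨3, 0, 0x8000023efefd80fffff7de1569c2000007388c4303ffffffeb2d810⟩,
  ⟨0, 0, 0x40000000000000⟩,
  ⟨0, 0, 0x40000000000000⟩,
  ⟨0, 0, 0x40000000000000⟩,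
  ⟨0, 0, 0x40000000000000⟩,
  ⟨0, 0, 0x40000000000000⟩,
  ⟨2, 0, 0x100000546a12801fffff81b27ea840000044eae950⟩,
  ⟨2, 0, 0x10000094c066e01fffff2652f2504000006f114120⟩,
  ⟨0, 0, 0x40000000000000⟩,
  ⟨0, 0, 0x40000000000000⟩,
  ⟨0, 0, 0x40000000000000⟩,
  ⟨0, 0, 0x40000000000000⟩,
  ⟨0, 0, 0x40000000000000⟩,
  ⟨2, 0, 0x100000546a12801fffff81b27ea840000044eae950⟩,
  ⟨0, 0, 0x40000000000000⟩,
  ⟨0, 0, 0x40000000000000⟩,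
  ⟨0, 0, 0x40000000000000⟩,
  ⟨0, 0, 0x40000000000000⟩,
  ⟨0, 0, 0x40000000000000⟩,
  ⟨0, 0, 0x40000000000000⟩,
  ⟨0, 0, 0x40000000000000⟩,
  ⟨0, 0, 0x40000000000000⟩,
  ⟨0, 0, 0x40000000000000⟩,
  ⟨0, 0, 0x40000000000000⟩,
  ⟨0, 0, 0x40000000000000⟩,
  ⟨0, 0, 0x40000000000000⟩,
  ⟨0, 0, 0x40000000000000⟩,
  ⟨0, 0, 0x40000000000000⟩,
  ⟨0, 0, 0x40000000000000⟩,
  ⟨0, 0, 0x40000000000000⟩,
  ⟨0, 0, 0x40000000000000⟩,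
  ⟨0, 0, 0x40000000000000⟩,
  ⟨0, 0, 0x40000000000000⟩,
  ⟨0, 0, 0x40000000000000⟩]

def zsAY : List (List Bool) := []

theorem heAY : eqPL ((eAY aDL gC gC wA).map (pSm ((1 : Nat) : Int))) (RAY.map (unpf rdAY.K rdAY.h)) = true := by
  decide +kernel

theorem hrAY : rgOK aRA rdAY RAY = true := by
  decide +kernel

end Pool.Agent.MCB.A
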