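import Pool.Agent.MCB.A.D
/-!
Cell A: the matrix of the region GA.
-/
set_option deprecated.oldSectionVars true
set_option autoImplicit false

namespace Pool.Agent.MCB.A
open Pool.Agent.MSQ Pool.Agent.MTR Pool.Agent.PKD Pool.Agent.MCA

def rdGA : Rd := ⟨6, 0, [(0, 0), (3, 0), (0, 0), (0, 0), (0, 0), (0, 0), (2, 0), (2, 0), (0, 0)], [], [], [], 14, 2, [1, 13124466936, 1, 2, 1, 1, 7439572, 7439572, 1], [], [], [], [false, true, true, true, true, true, false, false, false, false, false], 0x10000000000000, 0x8000000000000⟩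

def RGA : List Pk := [⟨0, 0, 0x8000000000000⟩,
  ⟨6, 0, 0x7fff9286ca8008001486ba08007ffe80d7c4c008000a435d0400800000000000080000000000008003a28646c00⟩,
  ⟨0, 0, 0x8000000000000⟩,
  ⟨0, 0, 0x8000000000000⟩,
  ⟨3, 0, 0x1e4ff095fd400f2bbd177178006e21a2437e80080ddb9fedbc00⟩,
  ⟨3, 0, 0x7f7b01c001800809c15d1478007fe7d6bfb140080081ffef8800⟩,
  ⟨0, 0, 0x8000000000000⟩,
  ⟨0, 0, 0x8000000000000⟩,
  ⟨0, 0, 0x8000000000000⟩,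
  ⟨0, 0, 0x8000000000000⟩,
  ⟨0, 0, 0x8000000000000⟩,
  ⟨6, 0, 0x80012aa4186007fffb9484a0007ffec71f993c080011ce6107907fff9c16d120880000fa8205e07fffff6e80210⟩,
  ⟨6, 0, 0x7fffe2eb8e4c080004381d4b407fffc64409b0080001f69166407ffff33041380800002dab51007fffffdd8e640⟩,
  ⟨6, 0, 0x7fffeea3c854080005ce45c4407fff91a21ff8080003a3944d807ffff3ea45d60800000e8b23a07ffffffeebac0⟩,
  ⟨3, 0, 0x80005d61f2f007fffdbba8a880800004dabeb007fffff8ee8680⟩,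
  ⟨3, 0, 0x80000ae516fc07ffff577ee2c08000025a9be007ffffff8b9d80⟩,
  ⟨0, 0, 0x8000000000000⟩,
  ⟨0, 0, 0x8000000000000⟩,
  ⟨0, 0, 0x8000000000000⟩,
  ⟨0, 0, 0x8000000000000⟩,
  ⟨0, 0, 0x8000000000000⟩,
  ⟨6, 0, 0x800005150ca007fffefbf0d440800012e2a8d407ffff65f5d740800002080fbc07fffffe41e4c08000000399cc0⟩,
  ⟨0, 0, 0x8000000000000⟩,
  ⟨3, 0, 0x7ffffec1f8740800003f1bf0c07ffffe7a7e0c080000024b8380⟩,
  ⟨3, 0, 0x800000ec4f3007ffffec46e50080000058d82007ffffffef41c0⟩,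
  ⟨0, 0, 0x8000000000000⟩,
  ⟨0, 0, 0x8000000000000⟩,
  ⟨0, 0, 0x8000000000000⟩,
  ⟨0, 0, 0x8000000000000⟩,
  ⟨0, 0, 0x8000000000000⟩,
  ⟨6, 0, 0x800001ed3c740800005b3152c07ffff0dbb644080000a4b13d007ffffde27c4c08000002a3f9c08000000390840⟩,
  ⟨3, 0, 0x7fffe8da7f3c080001ddac95007ffff90b17b408000003fce280⟩,
  ⟨3, 0, 0x7fffff3036340800001a7b1c007fffff60139008000000837e40⟩,
  ⟨0, 0, 0x8000000000000⟩,
  ⟨0, 0, 0x8000000000000⟩,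
  ⟨0, 0, 0x8000000000000⟩,
  ⟨0, 0, 0x8000000000000⟩,
  ⟨0, 0, 0x8000000000000⟩,
  ⟨2, 0, 0x80007026d33807fff81a8c9640800011eaf2b00⟩,
  ⟨2, 0, 0x80000433c8d807ffffb2f30600800000f326d00⟩,
  ⟨0, 0, 0x8000000000000⟩,
  ⟨0, 0, 0x8000000000000⟩,
  ⟨0, 0, 0x8000000000000⟩,
  ⟨0, 0, 0x8000000000000⟩,
  ⟨0, 0, 0x8000000000000⟩,
  ⟨2, 0, 0x800000983a4807fffff60d3f008000003f9b1c0⟩,
  ⟨0, 0, 0x8000000000000⟩,
  ⟨0, 0, 0x8000000000000⟩,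
  ⟨0, 0, 0x8000000000000⟩,
  ⟨0, 0, 0x8000000000000⟩,
  ⟨0, 0, 0x8000000000000⟩,
  ⟨0, 0, 0x8000000000000⟩,
  ⟨0, 0, 0x8000000000000⟩,
  ⟨0, 0, 0x8000000000000⟩,
  ⟨0, 0, 0x8000000000000⟩,
  ⟨0, 0, 0x8000000000000⟩,
  ⟨0, 0, 0x8000000000000⟩,
  ⟨0, 0, 0x8000000000000⟩,
  ⟨0, 0, 0x8000000000000⟩,
  ⟨0, 0, 0x8000000000000⟩,
  ⟨0, 0, 0x8000000000000⟩,
  ⟨0, 0, 0x8000000000000⟩,
  ⟨0, 0, 0x8000000000000⟩,
  ⟨0, 0, 0x8000000000000⟩,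
  ⟨0, 0, 0x8000000000000⟩,
  ⟨0, 0, 0x8000000000000⟩]

def zsGA : List (List Bool) := []

theorem heGA : eqPL ((eGA aDL gC gS wG).map (pSm ((1 : Nat) : Int))) (RGA.map (unpf rdGA.K rdGA.h)) = true := by
  decide +kernel

theorem hrGA : rgOK aRG rdGA RGA = true := by
  decide +kernel

end Pool.Agent.MCB.A
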