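import Pool.Agent.MCA.PKT2
import Pool.Agent.MCB.A.BAY0
import Pool.Agent.MCB.A.BAY1
/-!
Cell A: covering of the region AY.
-/
set_option autoImplicit false

namespace Pool.Agent.MCB.A
open Pool.Agent.MSQ Pool.Agent.MTR Pool.Agent.PKD Pool.Agent.MCA

theorem covAY : Cov (covR 0 1 0 1) aRA (eAY aDL gC gC wA) :=
  cov_of _ _ _ 1 (by decide) rdAY RAY heAY hrAY zsAY
   [[bAY_0_0],
    [bAY_1_0],
    [bAY_2_0],
    [bAY_3_0],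
    [bAY_4_0],
    [bAY_5_0],
    [bAY_6_0]]
   (by decide +kernel)
   ⟨⟨kAY_0_0, trivial⟩,
    ⟨kAY_1_0, trivial⟩,
    ⟨kAY_2_0, trivial⟩,
    ⟨kAY_3_0, trivial⟩,
    ⟨kAY_4_0, trivial⟩,
    ⟨kAY_5_0, trivial⟩,
    ⟨kAY_6_0, trivial⟩, trivial⟩

end Pool.Agent.MCB.A
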