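import Pool.Agent.MCA.PKT2
import Pool.Agent.MCB.A.BGA0
import Pool.Agent.MCB.A.BGA1
/-!
Cell A: covering of the region GA.
-/
set_option autoImplicit false

namespace Pool.Agent.MCB.A
open Pool.Agent.MSQ Pool.Agent.MTR Pool.Agent.PKD Pool.Agent.MCA

theorem covGA : Cov (covR 0 1 0 1) aRG (eGA aDL gC gS wG) :=
  cov_of _ _ _ 1 (by decide) rdGA RGA heGA hrGA zsGA
   [[bGA_0_0],
    [bGA_1_0],
    [bGA_2_0],
    [bGA_3_0],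
    [bGA_4_0],
    [bGA_5_0],
    [bGA_6_0]]
   (by decide +kernel)
   ⟨⟨kGA_0_0, trivial⟩,
    ⟨kGA_1_0, trivial⟩,
    ⟨kGA_2_0, trivial⟩,
    ⟨kGA_3_0, trivial⟩,
    ⟨kGA_4_0, trivial⟩,
    ⟨kGA_5_0, trivial⟩,
    ⟨kGA_6_0, trivial⟩, trivial⟩

end Pool.Agent.MCB.A
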