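import Pool.Agent.MCA.PKT2
import Pool.Agent.MCB.A.BX0
import Pool.Agent.MCB.A.BX1
/-!
Cell A: covering of the region X.
-/
set_option autoImplicit false

namespace Pool.Agent.MCB.A
open Pool.Agent.MSQ Pool.Agent.MTR Pool.Agent.PKD Pool.Agent.MCA

theorem covX : Cov (covR 0 1 0 1) aRX (eX aDL 12 gC F wX vX) :=
  cov_of _ _ _ 1 (by decide) rdX RX heX hrX zsX
   [[bX_0_0, bX_0_1, bX_0_2, bX_0_3, bX_0_4, bX_0_5, bX_0_6]]
   (by decide +kernel)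
   ⟨⟨kX_0_0, kX_0_1, kX_0_2, kX_0_3, kX_0_4, kX_0_5, kX_0_6, trivial⟩, trivial⟩

end Pool.Agent.MCB.A
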