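import Pool.Agent.MCA.PKT2
import Pool.Agent.MCB.A.BY0
import Pool.Agent.MCB.A.BY1
import Pool.Agent.MCB.A.BY2
/-!
Cell A: covering of the region Y.
-/
set_option autoImplicit false

namespace Pool.Agent.MCB.A
open Pool.Agent.MSQ Pool.Agent.MTR Pool.Agent.PKD Pool.Agent.MCA

theorem covY : Cov (covC 0 1) aRY ((eC aDL 12 gS F wY vY).map M2) :=
  cov_of _ _ _ 1 (by decide) rdY RY heY hrY zsY
   [[bY_0_0],
    [bY_1_0],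
    [bY_2_0],
    [bY_3_0],
    [bY_4_0],
    [bY_5_0],
    [bY_6_0],
    [bY_7_0],
    [bY_8_0],
    [bY_9_0],
    [bY_10_0],
    [bY_11_0],
    [bY_12_0],
    [bY_13_0]]
   (by decide +kernel)
   ⟨⟨kY_0_0, trivial⟩,
    ⟨kY_1_0, trivial⟩,
    ⟨kY_2_0, trivial⟩,
    ⟨kY_3_0, trivial⟩,
    ⟨kY_4_0, trivial⟩,
    ⟨kY_5_0, trivial⟩,
    ⟨kY_6_0, trivial⟩,
    ⟨kY_7_0, trivial⟩,
    ⟨kY_8_0, trivial⟩,
    ⟨kY_9_0, trivial⟩,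
    ⟨kY_10_0, trivial⟩,
    ⟨kY_11_0, trivial⟩,
    ⟨kY_12_0, trivial⟩,
    ⟨kY_13_0, trivial⟩, trivial⟩

end Pool.Agent.MCB.A
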