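import Pool.Agent.MCA.PKT2
import Pool.Agent.MCB.A.Bcore0
import Pool.Agent.MCB.A.Bcore1
import Pool.Agent.MCB.A.Bcore2
import Pool.Agent.MCB.A.Bcore3
import Pool.Agent.MCB.A.Bcore4
import Pool.Agent.MCB.A.Bcore5
import Pool.Agent.MCB.A.Bcore6
import Pool.Agent.MCB.A.Bcore7
import Pool.Agent.MCB.A.Bcore8
/-!
Cell A: covering of the region core.
-/
set_option autoImplicit false

namespace Pool.Agent.MCB.A
open Pool.Agent.MSQ Pool.Agent.MTR Pool.Agent.PKD Pool.Agent.MCA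

theorem covcore : Cov (covR 0 1 0 1) aRC (MCA.rA (12 * 1000000) aDL gC alC) :=
  cov_of _ _ _ 1 (by decide) rdcore Rcore hecore hrcore zscore
   [[bcore_0_0, bcore_0_1, bcore_0_2, bcore_0_3, bcore_0_4, bcore_0_5, bcore_0_6],
    [bcore_1_0, bcore_1_1, bcore_1_2, bcore_1_3, bcore_1_4, bcore_1_5, bcore_1_6],
    [bcore_2_0, bcore_2_1, bcore_2_2, bcore_2_3, bcore_2_4, bcore_2_5, bcore_2_6],
    [bcore_3_0, bcore_3_1, bcore_3_2, bcore_3_3, bcore_3_4, bcore_3_5, bcore_3_6],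
    [bcore_4_0, bcore_4_1, bcore_4_2, bcore_4_3, bcore_4_4, bcore_4_5, bcore_4_6],
    [bcore_5_0, bcore_5_1, bcore_5_2, bcore_5_3, bcore_5_4, bcore_5_5, bcore_5_6],
    [bcore_6_0, bcore_6_1, bcore_6_2, bcore_6_3, bcore_6_4, bcore_6_5, bcore_6_6]]
   (by decide +kernel)
   ⟨⟨kcore_0_0, kcore_0_1, kcore_0_2, kcore_0_3, kcore_0_4, kcore_0_5, kcore_0_6, trivial⟩,
    ⟨kcore_1_0, kcore_1_1, kcore_1_2, kcore_1_3, kcore_1_4, kcore_1_5, kcore_1_6, trivial⟩,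
    ⟨kcore_2_0, kcore_2_1, kcore_2_2, kcore_2_3, kcore_2_4, kcore_2_5, kcore_2_6, trivial⟩,
    ⟨kcore_3_0, kcore_3_1, kcore_3_2, kcore_3_3, kcore_3_4, kcore_3_5, kcore_3_6, trivial⟩,
    ⟨kcore_4_0, kcore_4_1, kcore_4_2, kcore_4_3, kcore_4_4, kcore_4_5, kcore_4_6, trivial⟩,
    ⟨kcore_5_0, kcore_5_1, kcore_5_2, kcore_5_3, kcore_5_4, kcore_5_5, kcore_5_6, trivial⟩,
    ⟨kcore_6_0, kcore_6_1, kcore_6_2, kcore_6_3, kcore_6_4, kcore_6_5, kcore_6_6, trivial⟩, trivial⟩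

end Pool.Agent.MCB.A
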