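import Pool.Agent.MCA.PKT2
import Pool.Agent.MCB.A.Bsliv0
import Pool.Agent.MCB.A.Bsliv1
import Pool.Agent.MCB.A.Bsliv2
import Pool.Agent.MCB.A.Bsliv3
import Pool.Agent.MCB.A.Bsliv4
import Pool.Agent.MCB.A.Bsliv5
import Pool.Agent.MCB.A.Bsliv6
import Pool.Agent.MCB.A.Bsliv7
/-!
Cell A: covering of the region sliv.
-/
set_option autoImplicit false

namespace Pool.Agent.MCB.A
open Pool.Agent.MSQ Pool.Agent.MTR Pool.Agent.PKD Pool.Agent.MCA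

theorem covsliv : Cov (covS 0 1) aRS (MCA.rA (12 * 1000000) aDL gS alS) :=
  cov_of _ _ _ 1048576 (by decide) rdsliv Rsliv hesliv hrsliv zssliv
   [[bsliv_0_0, bsliv_0_1, bsliv_0_2, bsliv_0_3, bsliv_0_4],
    [bsliv_1_0, bsliv_1_1, bsliv_1_2, bsliv_1_3],
    [bsliv_2_0, bsliv_2_1, bsliv_2_2, bsliv_2_3],
    [bsliv_3_0, bsliv_3_1, bsliv_3_2, bsliv_3_3],
    [bsliv_4_0, bsliv_4_1, bsliv_4_2],
    [bsliv_5_0, bsliv_5_1, bsliv_5_2],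
    [bsliv_6_0, bsliv_6_1, bsliv_6_2],
    [bsliv_7_0, bsliv_7_1, bsliv_7_2],
    [bsliv_8_0, bsliv_8_1, bsliv_8_2],
    [bsliv_9_0, bsliv_9_1],
    [bsliv_10_0, bsliv_10_1],
    [bsliv_11_0, bsliv_11_1],
    [bsliv_12_0, bsliv_12_1],
    [bsliv_13_0, bsliv_13_1],
    [bsliv_14_0],
    [bsliv_15_0]]
   (by decide +kernel)
   ⟨⟨ksliv_0_0, ksliv_0_1, ksliv_0_2, ksliv_0_3, ksliv_0_4, trivial⟩,
    ⟨ksliv_1_0, ksliv_1_1, ksliv_1_2, ksliv_1_3, trivial⟩,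
    ⟨ksliv_2_0, ksliv_2_1, ksliv_2_2, ksliv_2_3, trivial⟩,
    ⟨ksliv_3_0, ksliv_3_1, ksliv_3_2, ksliv_3_3, trivial⟩,
    ⟨ksliv_4_0, ksliv_4_1, ksliv_4_2, trivial⟩,
    ⟨ksliv_5_0, ksliv_5_1, ksliv_5_2, trivial⟩,
    ⟨ksliv_6_0, ksliv_6_1, ksliv_6_2, trivial⟩,
    ⟨ksliv_7_0, ksliv_7_1, ksliv_7_2, trivial⟩,
    ⟨ksliv_8_0, ksliv_8_1, ksliv_8_2, trivial⟩,
    ⟨ksliv_9_0, ksliv_9_1, trivial⟩,
    ⟨ksliv_10_0, ksliv_10_1, trivial⟩,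
    ⟨ksliv_11_0, ksliv_11_1, trivial⟩,
    ⟨ksliv_12_0, ksliv_12_1, trivial⟩,
    ⟨ksliv_13_0, ksliv_13_1, trivial⟩,
    ⟨ksliv_14_0, trivial⟩,
    ⟨ksliv_15_0, trivial⟩, trivial⟩

end Pool.Agent.MCB.A
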