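import Pool.Agent.MCA.AVL
import Pool.Agent.MCA.QUA
import Pool.Agent.MCA.SQR
import Pool.Agent.MCA.PKT2
import Pool.Agent.MCB.A.Vcore
import Pool.Agent.MCB.A.Vsliv
import Pool.Agent.MCB.A.VAY
import Pool.Agent.MCB.A.VGA
import Pool.Agent.MCB.A.VX
import Pool.Agent.MCB.A.VY
/-!
Cell A: the inequality of the squares.
-/
set_option autoImplicit false

open Pool.Agent.MSQ Pool.Agent.MTR Pool.Agent.MCA Pool.Agent.MGF

namespace Pool.Agent.MCB.A

def kS : P := [[5931516], [758148], [-1828272], [4393356], [-23940828], [25273152]]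

def sq : Sqd where
  DL := aDL
  DF := 1000000
  kf := 12
  gC _ := gC
  gS _ := gS
  lC _ := alC
  lS _ := alS
  F1 := F
  F2 := F
  rC _ := aRC
  rS _ := aRS
  rA _ := aRA
  rG _ := aRG
  rX _ := aRX
  rY _ := aRY
  wA _ := wA
  wG _ := wG
  wX _ := wX
  vX _ := vX
  wY _ := wY
  vY _ := vY
  kC _ := 0
  kS _ := 0

theorem sq_ok : sq.Ok where
  pDL := by decide +kernel
  pDF := by decide +kernel
  pkf := by decide +kernel
  wC := by decide +kernel
  wS := by decide +kernel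
  lenC := by decide +kernel
  lenS := by decide +kernel
  pkC _ := le_refl _
  pkS _ := le_refl _
  core _ := covcore
  sliv _ := covsliv
  axis _ := covAY
  gam _ := covGA
  side σ := by cases σ <;> exact covX
  curv _ := covY
  tieC := by decide +kernel
  tieS := by decide +kernel
  K1 := by decide +kernel
  K2 _ := ⟨kS, (by decide +kernel : eqP gS.K (pMul curP kS) = true)⟩
  K3 := by decide +kernel
  K4 := by decide +kernel
  K5 := by decide +kernel
  nA := by decide +kernel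
  nG := by decide +kernel
  nX := by decide +kernel
  nY := by decide +kernel

theorem sq_val (J : Jet) (h : SqHyp J (3 / 1000)) (hc : 1 / 2 ≤ J.f (0, 0)) (σ : Bool) : sq.Val σ J where
  C x y hx hx1 hy hy1 := aV_C h hc x y hx hx1 hy hy1
  S x y hx hx1 hy hy1 := aV_S h x y hx hx1 hy hy1
  A x hx hx1 := aV_A h hc x hx hx1
  G x hx hx1 := aV_G h x hx hx1
  X y hy hy1 := aV_X h y hy hy1
  Y x hx hx1 := aV_Y h x hx hx1
  lC x y hx hx1 hy hy1 := aV_lC h x y hx hx1 hy hy1
  lS x y _ _ _ _ := aV_lS (J := J) x y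

theorem F_ev : (evenL [66391, 0, 118820, 0, -79685] && evenL [2900518, 0, -3295441, 0, 1126620] && oddL [0, -250923, 0, 2331682, 0, -2835366] && evenL [-609656, 0, -568785, 0, 667997] && evenL [6947151, 0, -29695261, 0, 87747243] && evenL [119411, 0, -194100, 0, 391896] && oddL [0, 5265519, 0, -13975740, 0, 21331649]) = true := by
  decide +kernel

theorem F_eq : FL 1000000 F = FF 1000000 [66391, 0, 118820, 0, -79685] [2900518, 0, -3295441, 0, 1126620] [0, -250923, 0, 2331682, 0, -2835366] [-609656, 0, -568785, 0, 667997] [6947151, 0, -29695261, 0, 87747243] [119411, 0, -194100, 0, 391896] [0, 5265519, 0, -13975740, 0, 21331649] := rfl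

theorem F_sym : Fsym (FL 1000000 F) := by
  rw [F_eq]
  exact FF_sym _ _ _ _ _ _ _ _ F_ev

theorem F_cont : Continuous fun z : ℝ × ℝ × ℝ × ℝ => FL 1000000 F z.1 z.2.1 z.2.2.1 z.2.2.2 := by
  rw [F_eq]
  exact FF_cont _ _ _ _ _ _ _ _

theorem sq_fin (J : Jet) (h : SqHyp J (3 / 1000)) (hc : 1 / 2 ≤ J.f (0, 0)) :
    -(sXp (FL 1000000 F) J + sXm (FL 1000000 F) J + sYp (FL 1000000 F) J + sYm (FL 1000000 F) J) - 0 ≤ JM J := by
  have e : ∀ J : Jet, J.rx.f (0, 0) = J.f (0, 0) ∧ J.ry.f (0, 0) = J.f (0, 0) := by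
    intro J
    simp [Jet.rx, Jet.ry]
  have c1 : 1 / 2 ≤ J.ry.f (0, 0) := by rw [(e J).2]; exact hc
  have c2 : 1 / 2 ≤ J.rx.f (0, 0) := by rw [(e J).1]; exact hc
  have c3 : 1 / 2 ≤ J.rx.ry.f (0, 0) := by rw [(e J.rx).2]; exact c2
  refine qua sq sq_ok J h.good h.cor F_sym F_sym F_cont F_cont (sq_val J h hc false) (sq_val _ (sqh_ry h) c1 false)
    (sq_val _ (sqh_rx h) c2 true) (sq_val _ (sqh_ry (sqh_rx h)) c3 true) 0 ?_
  simp [sq]

end Pool.Agent.MCB.A
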